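import Pool.Agent.Lib_helper75.JB.C

/-!
The minimum principle on a rectangle for even real-symmetric functions: it is enough to look at two
edges.
-/

set_option autoImplicit false

open Complex Filter Topology

namespace Pool.Agent.JB

/-- **The minimum principle** on the rectangle `|u| ≤ A`, `|v| ≤ B`, two edges -/
theorem rect_min {A B : ℝ} (hA : 0 < A) (hB : 0 < B) {G : ℂ → ℂ}
    (hd : ∀ w : ℂ, |w.re| ≤ A → |w.im| ≤ B → DifferentiableAt ℂ G w)
    (hs : ∀ w : ℂ, |w.re| ≤ A → |w.im| ≤ B →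
      (G w).re = (G ((|w.re| : ℝ) + (|w.im| : ℝ) * I)).re)
    (h1 : ∀ v : ℝ, 0 ≤ v → v ≤ B → 0 ≤ (G ((A : ℂ) + (v : ℂ) * I)).re)
    (h2 : ∀ u : ℝ, 0 ≤ u → u ≤ A → 0 ≤ (G ((u : ℂ) + (B : ℂ) * I)).re) :
    ∀ w : ℂ, |w.re| ≤ A → |w.im| ≤ B → 0 ≤ (G w).re := by
  intro w hw1 hw2
  set U : Set ℂ := Set.Ioo (-A) A ×ℂ Set.Ioo (-B) B with hU
  have hcl : closure U = Set.Icc (-A) A ×ℂ Set.Icc (-B) B := by
    rw [hU, closure_reProdIm, closure_Ioo (by linarith), closure_Ioo (by linarith)]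
  have hfr : ∀ z ∈ frontier U, (|z.re| ≤ A ∧ |z.im| = B) ∨ (|z.re| = A ∧ |z.im| ≤ B) := by
    intro z hz
    rw [hU, frontier_reProdIm, closure_Ioo (by linarith), closure_Ioo (by linarith),
      frontier_Ioo (by linarith), frontier_Ioo (by linarith)] at hz
    rcases hz with hz | hz
    · left
      have h3 : z.re ∈ Set.Icc (-A) A := hz.1
      have h4 : z.im ∈ ({-B, B} : Set ℝ) := hz.2
      refine ⟨abs_le.2 h3, ?_⟩
      rcases h4 with h4 | h4
      · rw [h4, abs_neg, abs_of_pos hB]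
      · rw [Set.mem_singleton_iff.1 h4, abs_of_pos hB]
    · right
      have h3 : z.re ∈ ({-A, A} : Set ℝ) := hz.1
      have h4 : z.im ∈ Set.Icc (-B) B := hz.2
      refine ⟨?_, abs_le.2 h4⟩
      rcases h3 with h3 | h3
      · rw [h3, abs_neg, abs_of_pos hA]
      · rw [Set.mem_singleton_iff.1 h3, abs_of_pos hA]
  have hmem : ∀ z ∈ closure U, |z.re| ≤ A ∧ |z.im| ≤ B := by
    intro z hz
    rw [hcl] at hz
    exact ⟨abs_le.2 hz.1, abs_le.2 hz.2⟩
  have hdiff : DiffContOnCl ℂ (fun z => exp (-G z)) U := by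
    apply DifferentiableOn.diffContOnCl
    intro z hz
    obtain ⟨h3, h4⟩ := hmem z hz
    exact ((hd z h3 h4).neg.cexp).differentiableWithinAt
  have hbd : Bornology.IsBounded U := (Metric.isBounded_Ioo _ _).reProdIm (Metric.isBounded_Ioo _ _)
  have key := Complex.norm_le_of_forall_mem_frontier_norm_le hbd hdiff (C := 1) (by
    intro z hz
    rw [Complex.norm_exp, neg_re]
    apply Real.exp_le_one_iff.2
    rw [neg_nonpos]
    rcases hfr z hz with ⟨h3, h4⟩ | ⟨h3, h4⟩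
    · rw [hs z h3 h4.le, h4]
      exact h2 _ (abs_nonneg _) h3
    · rw [hs z h3.le h4, h3]
      exact h1 _ (abs_nonneg _) h4) (z := w) (by
    rw [hcl]
    exact ⟨abs_le.1 hw1, abs_le.1 hw2⟩)
  rw [Complex.norm_exp, neg_re] at key
  have := Real.exp_le_one_iff.1 key
  linarith

end Pool.Agent.JB
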